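import Pool.Agent.Helper7.OV.Goals1

/-! Packet OV-DEG: degrees and lengths of polynomials in two variables. -/

set_option autoImplicit false

open Finset

namespace Pool.Agent.Helper51.OV.DEG

open Pool.Agent.Helper7.OV
open scoped Polynomial

section gen

variable {R : Type*} [CommRing R]

/-- the sum of `N` over the coefficients -/
noncomputable def L (N : R → ℕ) (f : Polynomial R) : ℕ := ∑ i ∈ f.support, N (f.coeff i)

lemma L_sub (N : R → ℕ) (h0 : N 0 = 0) (f : Polynomial R) (S : Finset ℕ) (hS : f.support ⊆ S) :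
    L N f = ∑ i ∈ S, N (f.coeff i) := by
  unfold L
  apply Finset.sum_subset hS
  intro i _ hi
  rw [Polynomial.notMem_support_iff.mp hi, h0]

lemma L_add (N : R → ℕ) (h0 : N 0 = 0) (hadd : ∀ a b, N (a + b) ≤ N a + N b) (f g : Polynomial R) :
    L N (f + g) ≤ L N f + L N g := by
  rw [L_sub N h0 (f + g) (f.support ∪ g.support) Polynomial.support_add,
    L_sub N h0 f (f.support ∪ g.support) Finset.subset_union_left,
    L_sub N h0 g (f.support ∪ g.support) Finset.subset_union_right, ← Finset.sum_add_distrib]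
  apply Finset.sum_le_sum
  intro i _
  rw [Polynomial.coeff_add]
  exact hadd _ _

lemma L_zero (N : R → ℕ) : L N (0 : Polynomial R) = 0 := by
  simp [L]

lemma L_sum (N : R → ℕ) (h0 : N 0 = 0) (hadd : ∀ a b, N (a + b) ≤ N a + N b) {ι : Type*}
    (s : Finset ι) (f : ι → Polynomial R) :
    L N (∑ i ∈ s, f i) ≤ ∑ i ∈ s, L N (f i) := by
  classical
  induction s using Finset.induction_on with
  | empty => simp [L_zero]
  | insert a s ha ih =>
    rw [Finset.sum_insert ha, Finset.sum_insert ha]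
    exact (L_add N h0 hadd _ _).trans (Nat.add_le_add_left ih _)

lemma L_mon_mul (N : R → ℕ) (h0 : N 0 = 0) (hmul : ∀ a b, N (a * b) ≤ N a * N b) (i : ℕ) (a : R)
    (g : Polynomial R) : L N (Polynomial.monomial i a * g) ≤ N a * L N g := by
  classical
  have hS : (Polynomial.monomial i a * g).support ⊆ g.support.image (fun j => j + i) := by
    intro k hk
    rw [Polynomial.mem_support_iff] at hk
    rw [Finset.mem_image]
    by_cases hki : i ≤ k
    · obtain ⟨j, rfl⟩ := Nat.exists_eq_add_of_le' hki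
      refine ⟨j, ?_, rfl⟩
      rw [Polynomial.mem_support_iff]
      intro h
      apply hk
      rw [Polynomial.coeff_monomial_mul, h, mul_zero]
    · exfalso
      apply hk
      rw [← Polynomial.C_mul_X_pow_eq_monomial, mul_assoc, Polynomial.coeff_C_mul,
        Polynomial.coeff_X_pow_mul', if_neg hki, mul_zero]
  rw [L_sub N h0 _ _ hS, Finset.sum_image (by intro x _ y _ h; simpa using h)]
  unfold L
  rw [Finset.mul_sum]
  apply Finset.sum_le_sum
  intro j _
  rw [Polynomial.coeff_monomial_mul]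
  exact hmul _ _

lemma L_mul (N : R → ℕ) (h0 : N 0 = 0) (hadd : ∀ a b, N (a + b) ≤ N a + N b)
    (hmul : ∀ a b, N (a * b) ≤ N a * N b) (f g : Polynomial R) :
    L N (f * g) ≤ L N f * L N g := by
  conv_lhs => rw [f.as_sum_support, Finset.sum_mul]
  refine (L_sum N h0 hadd _ _).trans ?_
  unfold L
  rw [Finset.sum_mul]
  apply Finset.sum_le_sum
  intro i _
  exact L_mon_mul N h0 hmul i _ g

lemma L_mon (N : R → ℕ) (h0 : N 0 = 0) (i : ℕ) (a : R) : L N (Polynomial.monomial i a) = N a := by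
  rw [L_sub N h0 _ {i} (Polynomial.support_monomial_subset i a), Finset.sum_singleton, Polynomial.coeff_monomial, if_pos rfl]

lemma L_neg (N : R → ℕ) (hn : ∀ a, N (-a) = N a) (f : Polynomial R) : L N (-f) = L N f := by
  unfold L
  rw [Polynomial.support_neg]
  apply Finset.sum_congr rfl
  intro i _
  rw [Polynomial.coeff_neg, hn]

end gen

lemma len1_eq (f : Polynomial ℤ) : len1 f = L Int.natAbs f := rfl

lemma len_eq (F : P2) : len F = L (L Int.natAbs) F := rfl

lemma a1 : ∀ f g : Polynomial ℤ, L Int.natAbs (f + g) ≤ L Int.natAbs f + L Int.natAbs g :=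
  L_add _ rfl Int.natAbs_add_le

lemma a2 : ∀ f g : Polynomial ℤ, L Int.natAbs (f * g) ≤ L Int.natAbs f * L Int.natAbs g :=
  L_mul _ rfl Int.natAbs_add_le (fun a b => (Int.natAbs_mul a b).le)

lemma a0 : L Int.natAbs (0 : Polynomial ℤ) = 0 := L_zero _

lemma len_add (F G : P2) : len (F + G) ≤ len F + len G := L_add _ a0 a1 F G

lemma len_mul (F G : P2) : len (F * G) ≤ len F * len G := L_mul _ a0 a1 a2 F G

lemma len_neg (F : P2) : len (-F) = len F := L_neg _ (L_neg _ Int.natAbs_neg) F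

lemma len_sub (F G : P2) : len (F - G) ≤ len F + len G := by
  rw [sub_eq_add_neg]
  refine (len_add _ _).trans ?_
  rw [len_neg]

lemma len_mon (i j : ℕ) (a : ℤ) : len (Polynomial.monomial j (Polynomial.monomial i a)) = a.natAbs := by
  rw [len_eq, L_mon _ a0, L_mon _ rfl]

lemma XX_mon : XX = Polynomial.monomial 0 (Polynomial.monomial 1 1) := by
  simp [XX, Polynomial.X]

lemma YY_mon : YY = Polynomial.monomial 1 (Polynomial.monomial 0 1) := by
  simp [YY, Polynomial.X]

lemma one_mon : (1 : P2) = Polynomial.monomial 0 (Polynomial.monomial 0 1) := by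
  simp

lemma two_mon : (2 : P2) = Polynomial.monomial 0 (Polynomial.monomial 0 2) := by
  simp only [Polynomial.monomial_zero_left]
  rfl

lemma len_XX : len XX = 1 := by rw [XX_mon, len_mon]; rfl
lemma len_YY : len YY = 1 := by rw [YY_mon, len_mon]; rfl
lemma len_one : len (1 : P2) = 1 := by rw [one_mon, len_mon]; rfl
lemma len_two : len (2 : P2) = 2 := by rw [two_mon, len_mon]; rfl

lemma l1 : len (1 - XX) ≤ 2 := by
  refine (len_sub _ _).trans ?_
  rw [len_XX, len_one]

lemma l2 : len (1 - YY) ≤ 2 := by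
  refine (len_sub _ _).trans ?_
  rw [len_YY, len_one]

lemma l3 : len (XX - YY) ≤ 2 := by
  refine (len_sub _ _).trans ?_
  rw [len_YY, len_XX]

lemma lm {F G : P2} {a b : ℕ} (hF : len F ≤ a) (hG : len G ≤ b) : len (F * G) ≤ a * b :=
  (len_mul F G).trans (Nat.mul_le_mul hF hG)

lemma dl_iff (F : P2) (a b : ℕ) : DL a b F ↔ ∀ i j : ℕ, co F i j ≠ 0 → i ≤ a ∧ j ≤ b := by
  constructor
  · rintro ⟨h1, h2⟩ i j h
    unfold co at h
    constructor
    · exact (Polynomial.le_natDegree_of_ne_zero h).trans (h2 j)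
    · refine (Polynomial.le_natDegree_of_ne_zero ?_).trans h1
      intro h0
      rw [h0] at h
      simp at h
  · intro h
    constructor
    · rw [Polynomial.natDegree_le_iff_coeff_eq_zero]
      intro j hj
      ext i
      by_contra hne
      have := (h i j (by simpa [co] using hne)).2
      omega
    · intro j
      rw [Polynomial.natDegree_le_iff_coeff_eq_zero]
      intro i hi
      by_contra hne
      have := (h i j (by simpa [co] using hne)).1
      omega

lemma dl_mul (F G : P2) (a b a' b' : ℕ) (hF : DL a b F) (hG : DL a' b' G) : DL (a + a') (b + b') (F * G) := by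
  refine ⟨Polynomial.natDegree_mul_le.trans (Nat.add_le_add hF.1 hG.1), ?_⟩
  intro j
  rw [Polynomial.coeff_mul]
  apply Polynomial.natDegree_sum_le_of_forall_le
  intro x _
  exact Polynomial.natDegree_mul_le.trans (Nat.add_le_add (hF.2 _) (hG.2 _))

lemma dl_add (F G : P2) (a b : ℕ) (hF : DL a b F) (hG : DL a b G) : DL a b (F + G) := by
  refine ⟨Polynomial.natDegree_add_le_of_degree_le hF.1 hG.1, ?_⟩
  intro j
  rw [Polynomial.coeff_add]
  exact Polynomial.natDegree_add_le_of_degree_le (hF.2 j) (hG.2 j)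

lemma dl_neg (F : P2) (a b : ℕ) (hF : DL a b F) : DL a b (-F) := by
  refine ⟨by rw [Polynomial.natDegree_neg]; exact hF.1, ?_⟩
  intro j
  rw [Polynomial.coeff_neg, Polynomial.natDegree_neg]
  exact hF.2 j

lemma dl_sub (F G : P2) (a b : ℕ) (hF : DL a b F) (hG : DL a b G) : DL a b (F - G) := by
  rw [sub_eq_add_neg]
  exact dl_add _ _ _ _ hF (dl_neg _ _ _ hG)

lemma dl_mono (F : P2) (a b a' b' : ℕ) (hF : DL a b F) (ha : a ≤ a') (hb : b ≤ b') : DL a' b' F :=
  ⟨hF.1.trans hb, fun j => (hF.2 j).trans ha⟩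

lemma D1_coeff (F : P2) (j : ℕ) : (D1 F).coeff j = Polynomial.X * Polynomial.derivative (F.coeff j) := by
  unfold D1
  rw [Polynomial.finsetSum_coeff]
  simp only [Polynomial.coeff_monomial]
  by_cases hj : j < F.natDegree + 1
  · rw [Finset.sum_eq_single j]
    · simp
    · intro k _ hk
      rw [if_neg hk]
    · intro h
      exact absurd (Finset.mem_range.mpr hj) h
  · rw [Finset.sum_eq_zero]
    · rw [Polynomial.coeff_eq_zero_of_natDegree_lt (by omega)]
      simp
    · intro k hk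
      rw [if_neg]
      have := Finset.mem_range.mp hk
      omega

lemma co_D1 (F : P2) (i j : ℕ) : co (D1 F) i j = i * co F i j := by
  unfold co
  rw [D1_coeff]
  cases i with
  | zero => simp
  | succ i =>
    rw [Polynomial.coeff_X_mul, Polynomial.coeff_derivative]
    push_cast
    ring

lemma co_D2 (F : P2) (i j : ℕ) : co (D2 F) i j = j * co F i j := by
  unfold co D2
  cases j with
  | zero => simp
  | succ j =>
    rw [Polynomial.coeff_X_mul, Polynomial.coeff_derivative]
    have : ((j : Polynomial ℤ) + 1) = Polynomial.C ((j : ℤ) + 1) := by simp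
    rw [this, Polynomial.coeff_mul_C]
    push_cast
    ring

lemma dl_D1 (F : P2) (a b : ℕ) (hF : DL a b F) : DL a b (D1 F) := by
  rw [dl_iff] at hF ⊢
  intro i j h
  apply hF i j
  intro h0
  apply h
  rw [co_D1, h0, mul_zero]

lemma dl_D2 (F : P2) (a b : ℕ) (hF : DL a b F) : DL a b (D2 F) := by
  rw [dl_iff] at hF ⊢
  intro i j h
  apply hF i j
  intro h0
  apply h
  rw [co_D2, h0, mul_zero]

lemma dl_mon (i j : ℕ) (a : ℤ) : DL i j (Polynomial.monomial j (Polynomial.monomial i a)) := by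
  refine ⟨Polynomial.natDegree_monomial_le _, ?_⟩
  intro k
  rw [Polynomial.coeff_monomial]
  split_ifs
  · exact Polynomial.natDegree_monomial_le _
  · simp

lemma dl_one : DL 0 0 (1 : P2) := by rw [one_mon]; exact dl_mon 0 0 1
lemma dl_two : DL 0 0 (2 : P2) := by rw [two_mon]; exact dl_mon 0 0 2
lemma dl_XX : DL 1 0 XX := by rw [XX_mon]; exact dl_mon 1 0 1
lemma dl_YY : DL 0 1 YY := by rw [YY_mon]; exact dl_mon 0 1 1

lemma dl_pow (F : P2) (a b n : ℕ) (hF : DL a b F) : DL (n * a) (n * b) (F ^ n) := by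
  induction n with
  | zero => rw [pow_zero, Nat.zero_mul, Nat.zero_mul]; exact dl_one
  | succ n ih =>
    rw [pow_succ, Nat.succ_mul, Nat.succ_mul]
    exact dl_mul _ _ _ _ _ _ ih hF

lemma d1' : DL 1 0 (1 - XX) := dl_sub _ _ _ _ (dl_mono _ _ _ _ _ dl_one (by omega) (by omega)) dl_XX
lemma d2' : DL 0 1 (1 - YY) := dl_sub _ _ _ _ (dl_mono _ _ _ _ _ dl_one (by omega) (by omega)) dl_YY
lemma d3' : DL 1 1 (XX - YY) :=
  dl_sub _ _ _ _ (dl_mono _ _ _ _ _ dl_XX (by omega) (by omega)) (dl_mono _ _ _ _ _ dl_YY (by omega) (by omega))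

lemma dl_zero (a b : ℕ) : DL a b (0 : P2) := by
  refine ⟨by simp, ?_⟩
  intro j
  simp

lemma len_zero : len (0 : P2) = 0 := L_zero _

theorem t : S_DEG := by
  refine ⟨dl_iff, dl_mul, fun F G a b hF hG => ⟨dl_add F G a b hF hG, dl_sub F G a b hF hG⟩, dl_mono,
    fun F a b hF => ⟨dl_D1 F a b hF, dl_D2 F a b hF⟩, dl_pow, ⟨?_, ?_⟩, ?_⟩
  · unfold EE
    exact dl_mul _ _ _ _ _ _ (dl_mul _ _ _ _ _ _ (dl_mul _ _ _ _ _ _ dl_two d1') d2') d3'
  · unfold EE
    exact lm (lm (lm len_two.le l1) l2) l3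
  · intro i
    have e1 : DL 2 2 (YY * (1 - XX) * (1 - YY)) :=
      dl_mono _ _ _ _ _ (dl_mul _ _ _ _ _ _ (dl_mul _ _ _ _ _ _ dl_YY d1') d2') (by omega) (by omega)
    have e2 : DL 2 2 (XX * (1 - YY) ^ 2) :=
      dl_mono _ _ _ _ _ (dl_mul _ _ _ _ _ _ dl_XX (dl_pow _ _ _ 2 d2')) (by omega) (by omega)
    have e3 : DL 2 2 (-(YY * (1 - XX) ^ 2)) :=
      dl_neg _ _ _ (dl_mono _ _ _ _ _ (dl_mul _ _ _ _ _ _ dl_YY (dl_pow _ _ _ 2 d1')) (by omega) (by omega))
    have e4 : DL 2 2 (-(XX * (1 - XX) * (1 - YY))) :=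
      dl_neg _ _ _ (dl_mono _ _ _ _ _ (dl_mul _ _ _ _ _ _ (dl_mul _ _ _ _ _ _ dl_XX d1') d2') (by omega) (by omega))
    have f1 : len (YY * (1 - XX) * (1 - YY)) ≤ 8 := (lm (lm len_YY.le l1) l2).trans (by norm_num)
    have f2 : len (XX * (1 - YY) ^ 2) ≤ 8 := by
      rw [pow_two]
      exact (lm len_XX.le (lm l2 l2)).trans (by norm_num)
    have f3 : len (-(YY * (1 - XX) ^ 2)) ≤ 8 := by
      rw [len_neg, pow_two]
      exact (lm len_YY.le (lm l1 l1)).trans (by norm_num)
    have f4 : len (-(XX * (1 - XX) * (1 - YY))) ≤ 8 := by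
      rw [len_neg]
      exact (lm (lm len_XX.le l1) l2).trans (by norm_num)
    have z1 : DL 2 2 (0 : P2) := dl_zero 2 2
    have z2 : len (0 : P2) ≤ 8 := by rw [len_zero]; norm_num
    fin_cases i
    · exact ⟨z1, z1, z2, z2⟩
    · exact ⟨e1, e3, f1, f3⟩
    · exact ⟨e2, e4, f2, f4⟩

end Pool.Agent.Helper51.OV.DEG
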